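import Mathlib
import Pool.Agent.W6h79.Jump.Smooth
import Pool.Agent.W6h79.Jump.NS3
import Pool.Agent.TH286.CR.GE
import Pool.Agent.H139R3.FM

set_option autoImplicit false

/-!
# Iterated group jumps are not single group jumps

`Jump G E` is the `G`-jump `E^[G]` of an equivalence relation `E` on `X`.  For all infinite
countable groups `G`, `H` and every countable Borel equivalence relation `E` with at least two
classes (for instance equality on a two point space, or `E₀`), the iterated jump `(E^[G])^[H]` is
not Borel reducible to `E^[K]`, for any countable group `K`.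
-/

namespace Pool.Agent.Results.MP_9b97c3_lc.NoSingleJump

open Set MeasureTheory

/-- The `G`-jump `E^[G]` of a relation `E` on `X`, a relation on `X^G`: `α` and `β` are related if
there is `g` in `G` such that `α (g⁻¹ h)` and `β h` are `E`-related for all `h` in `G`. -/
def Jump (G : Type) [Group G] {X : Type} (E : X → X → Prop) : (G → X) → (G → X) → Prop :=
  fun α β => ∃ g : G, ∀ h : G, E (α (g⁻¹ * h)) (β h)

/-- `E` is Borel reducible to `F`. -/
def BorelReducible {X Y : Type} [MeasurableSpace X] [MeasurableSpace Y] (E : X → X → Prop)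
    (F : Y → Y → Prop) : Prop :=
  ∃ f : X → Y, Measurable f ∧ ∀ x x' : X, E x x' ↔ F (f x) (f x')

/-- `E` and `F` are Borel bi-reducible. -/
def BorelBireducible {X Y : Type} [MeasurableSpace X] [MeasurableSpace Y] (E : X → X → Prop)
    (F : Y → Y → Prop) : Prop :=
  BorelReducible E F ∧ BorelReducible F E

/-- `E` is a countable Borel equivalence relation. -/
structure IsCBER {X : Type} [MeasurableSpace X] (E : X → X → Prop) : Prop where
  equivalence : Equivalence E
  borel : MeasurableSet {p : X × X | E p.1 p.2}
  countable : ∀ x, {y | E x y}.Countable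

/-- The question Q1: for all countable groups `G`, `H` and every equivalence relation `E` on a
Polish space there is a countable group `K` such that `(E^[G])^[H]` and `E^[K]` are Borel
bi-reducible.  (The spaces `X^G` and so on have the product σ-algebra, which is the Borel
σ-algebra of the product topology.) -/
def Question1 : Prop :=
  ∀ (G H : Type) [Group G] [Countable G] [Group H] [Countable H] (X : Type)
    [TopologicalSpace X] [PolishSpace X] [MeasurableSpace X] [BorelSpace X] (E : X → X → Prop),
    Equivalence E → ∃ (K : Type) (_ : Group K), Countable K ∧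
      BorelBireducible (Jump H (Jump G E)) (Jump K E)

/-- The jump is monotone for pull backs. -/
theorem jump_comp (G : Type) [Group G] {X Y : Type} (E : X → X → Prop) (F : Y → Y → Prop)
    (f : X → Y) (hf : ∀ x x', E x x' ↔ F (f x) (f x')) (α β : G → X) :
    Jump G E α β ↔ Jump G F (fun g => f (α g)) (fun g => f (β g)) := by
  simp only [Jump, hf]

theorem main (G H : Type) [Group G] [Countable G] [Infinite G] [Group H] [Countable H]
    [Infinite H] (X : Type) [MeasurableSpace X] [StandardBorelSpace X] (E : X → X → Prop)
    (hE : IsCBER E) (h2 : ∃ x x', ¬ E x x') (K : Type) [Group K] [Countable K] :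
    ¬ BorelReducible (Jump H (Jump G E)) (Jump K E) := by
  rintro ⟨θ, hθ, hred⟩
  obtain ⟨s, hs1, hs2, hs3⟩ := Pool.Agent.H139R3.FM.feldman_moore E hE.equivalence hE.borel
    hE.countable
  by_cases hsm : ∃ f : X → ℝ, Measurable f ∧ ∀ x y, E x y ↔ f x = f y
  · obtain ⟨f, hf, hfE⟩ := hsm
    obtain ⟨x0, x1, hx⟩ := h2
    let c : Bool → X := fun b => if b then x1 else x0
    have hc : Measurable c := measurable_of_countable c
    have hcE : ∀ b b' : Bool, (b = b') ↔ E (c b) (c b') := by
      intro b b'
      have hx' : ¬ E x1 x0 := fun h => hx (hE.equivalence.symm h)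
      cases b <;> cases b' <;> simp [c, hx, hx', hE.equivalence.refl]
    let F : (K → ℝ) → (K → ℝ) → Prop := Jump K (Eq : ℝ → ℝ → Prop)
    have hF1 : ∀ y, F y y := fun y => ⟨1, fun k => by simp⟩
    have hF2 : ∀ y, {z | F y z}.Countable := Pool.Agent.W6h79.Jump.jump_eq_countable
    have hm1 : Measurable fun x : H → G → Bool => (fun h g => c (x h g)) := by
      refine measurable_pi_lambda _ fun h => measurable_pi_lambda _ fun g => ?_
      exact hc.comp ((measurable_pi_apply g).comp (measurable_pi_apply h))
    have hm2 : Measurable fun y : K → X => (fun k => f (y k)) :=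
      measurable_pi_lambda _ fun k => hf.comp (measurable_pi_apply k)
    refine Pool.Agent.W6h79.Jump.not_countable_classes (G := G) (H := H) F hF1 hF2
      (fun x => fun k => f (θ (fun h g => c (x h g)) k)) (hm2.comp (hθ.comp hm1)) ?_
    intro x y
    have e1 : Pool.Agent.W6h79.Jump.GJump H (Pool.Agent.W6h79.Jump.GJump G
        (Eq : Bool → Bool → Prop)) x y ↔
        Jump H (Jump G E) (fun h g => c (x h g)) (fun h g => c (y h g)) := by
      have e2 := jump_comp H (Jump G (Eq : Bool → Bool → Prop)) (Jump G E)
        (fun (a : G → Bool) => fun g => c (a g))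
        (jump_comp G (Eq : Bool → Bool → Prop) E c hcE) x y
      exact e2
    rw [e1, hred]
    exact jump_comp K E (Eq : ℝ → ℝ → Prop) f hfE _ _
  · obtain ⟨j, hj1, -, hj3⟩ := Pool.Agent.TH286.CR.glimm_effros s hs1 hs2 E hE.equivalence hs3 hsm
    have hjE : ∀ a b : ℕ → Bool, Pool.Agent.W6h79.Jump.Ev a b ↔ E (j a) (j b) := fun a b =>
      (hj3 a b).symm
    have hm1 : Measurable fun x : H → G → ℕ → Bool => (fun h g => j (x h g)) := by
      refine measurable_pi_lambda _ fun h => measurable_pi_lambda _ fun g => ?_
      exact hj1.comp ((measurable_pi_apply g).comp (measurable_pi_apply h))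
    refine Pool.Agent.W6h79.Jump.nonsmooth_core (G := G) (H := H) (K := K) E hE.equivalence
      hE.borel hE.countable (fun x => θ (fun h g => j (x h g))) (hθ.comp hm1) ?_
    intro x y
    have e2 := jump_comp H (Jump G Pool.Agent.W6h79.Jump.Ev) (Jump G E)
        (fun (a : G → ℕ → Bool) => fun g => j (a g))
        (jump_comp G Pool.Agent.W6h79.Jump.Ev E j hjE) x y
    exact e2.trans (hred _ _)

/-- **Theorem.** The answer to Q1 is negative.  Moreover, for all infinite countable groups `G` and
`H` and every countable Borel equivalence relation `E` with at least two classes on a Polish space,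
`(E^[G])^[H]` is not Borel reducible to `E^[K]` for any countable group `K`. -/
theorem result : ¬ Question1 ∧
    ∀ (G H : Type) [Group G] [Countable G] [Infinite G] [Group H] [Countable H] [Infinite H]
      (X : Type) [TopologicalSpace X] [PolishSpace X] [MeasurableSpace X] [BorelSpace X]
      (E : X → X → Prop), IsCBER E → (∃ x x', ¬ E x x') → ∀ (K : Type) [Group K] [Countable K],
        ¬ BorelReducible (Jump H (Jump G E)) (Jump K E) := by
  have hmain : ∀ (G H : Type) [Group G] [Countable G] [Infinite G] [Group H] [Countable H]
      [Infinite H] (X : Type) [TopologicalSpace X] [PolishSpace X] [MeasurableSpace X]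
      [BorelSpace X] (E : X → X → Prop), IsCBER E → (∃ x x', ¬ E x x') →
      ∀ (K : Type) [Group K] [Countable K], ¬ BorelReducible (Jump H (Jump G E)) (Jump K E) := by
    intro G H _ _ _ _ _ _ X _ _ _ _ E hE h2 K _ _
    exact main G H X E hE h2 K
  refine ⟨?_, hmain⟩
  intro hQ
  have hE : IsCBER (Eq : Bool → Bool → Prop) :=
    { equivalence := ⟨fun _ => rfl, fun h => h.symm, fun h h' => h.trans h'⟩
      borel := MeasurableSet.of_discrete
      countable := fun _ => Set.to_countable _ }
  obtain ⟨K, i1, i2, h1, -⟩ := hQ (Multiplicative ℤ) (Multiplicative ℤ) Bool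
    (Eq : Bool → Bool → Prop) hE.equivalence
  exact hmain (Multiplicative ℤ) (Multiplicative ℤ) Bool (Eq : Bool → Bool → Prop) hE
    ⟨true, false, by simp⟩ K h1

end Pool.Agent.Results.MP_9b97c3_lc.NoSingleJump
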